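import Pool.Agent.H.MP_537c9d_co.D

namespace Pool.Agent.Results.MP_537c9d_co.Yes

open Pool.Agent.H.MP_537c9d_co

theorem result (k : ℕ) (hk : 1 ≤ k) (σ : Equiv.Perm (Fin k))
    (h : ∀ (m : ℕ) (i j : Fin k), 1 ≤ m → m ≤ k → m ∣ (σ i : ℕ) + 1 →
      (m : ℤ) ∣ ((i : ℕ) : ℤ) - ((j : ℕ) : ℤ) → m ∣ (σ j : ℕ) + 1) :
    (σ ⟨0, hk⟩ : ℕ) + 1 = 1 ∨ (σ ⟨k - 1, by omega⟩ : ℕ) + 1 = 1 := by
  let ρ : ℕ → ℕ := fun t => if h : t - 1 < k then (σ ⟨t - 1, h⟩ : ℕ) + 1 else 0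
  have e : ∀ t (h : t - 1 < k), ρ t = (σ ⟨t - 1, h⟩ : ℕ) + 1 := fun t h => dif_pos h
  have w : W 0 k ρ := ⟨fun t a b => ?_, fun s t a b c d x => ?_, fun m s t a b c d x y => ?_⟩
  · have := ends hk w
    rwa [e 1 hk, e k (by omega)] at this
  · rw [e t (by omega)]; have := (σ ⟨t - 1, by omega⟩).2; omega
  · rw [e s (by omega), e t (by omega)] at x
    have := congrArg Fin.val (σ.injective (Fin.ext (Nat.succ_injective x)))
    simp only at this; omega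
  · rw [e s (by omega)] at x
    rw [e t (by omega)]
    refine h m _ _ (Nat.pos_of_dvd_of_pos x (by omega))
      ((Nat.le_of_dvd (by omega) x).trans (σ _).2) x ?_
    convert y.symm.dvd using 1
    simp only []; omega

end Pool.Agent.Results.MP_537c9d_co.Yes
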